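import Pool.Agent.E8helper19.LC.Stm

/-!
# Invertibility of `1 - K₀`
-/

set_option autoImplicit false
set_option linter.unusedSectionVars false

open MeasureTheory Filter Topology Set
open scoped Real BoundedContinuousFunction

namespace Pool.Agent.E8helper41.LC

open Pool.Agent.E8helper19.LC

lemma pw_eq (p s : ℝ) : pw p s = Complex.exp (((p * s : ℝ) : ℂ) * Complex.I) := by
  unfold pw
  congr 1
  push_cast
  ring

lemma pw_norm (p s : ℝ) : ‖pw p s‖ = 1 := by rw [pw_eq, Complex.norm_exp_ofReal_mul_I]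

lemma pw_sub (p s t : ℝ) : pw p (s - t) = pw p s * pw (-p) t := by
  unfold pw
  rw [← Complex.exp_add]
  congr 1
  push_cast
  ring

lemma pw_sub' (p s t : ℝ) : pw p (t - s) = pw (-p) s * pw p t := by
  unfold pw
  rw [← Complex.exp_add]
  congr 1
  push_cast
  ring

lemma pw_conj (p s : ℝ) : (starRingEnd ℂ) (pw p s) = pw (-p) s := by
  unfold pw
  rw [← Complex.exp_conj]
  congr 1
  simp

lemma pw_cont (p : ℝ) : Continuous (pw p) := by
  unfold pw
  fun_prop

/-- the data -/
structure Dt (k : ℝ) (V : ℝ → ℝ) (a : ℝ) : Prop where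
  k0 : 0 < k
  cont : Continuous V
  nn : ∀ s, 0 ≤ V s
  a0 : 0 < a
  supp : ∀ s, a ≤ |s| → V s = 0

/-- the primitive of `V` -/
noncomputable def Wp (V : ℝ → ℝ) (a s : ℝ) : ℝ := ∫ t in (-a)..s, V t

/-- the primitive of `e^(ips) V f` -/
noncomputable def AA (V : ℝ → ℝ) (a p : ℝ) (f : ℝ → ℂ) (s : ℝ) : ℂ :=
  ∫ t in (-a)..s, pw p t * ((V t : ℂ) * f t)

/-- the Volterra operator -/
noncomputable def Vo (k : ℝ) (V : ℝ → ℝ) (a : ℝ) (f : ℝ → ℂ) (s : ℝ) : ℂ :=
  Complex.I / (2 * k) * (pw k s * AA V a (-k) f s - pw (-k) s * AA V a k f s)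

section

variable {k : ℝ} {V : ℝ → ℝ} {a : ℝ}

lemma Wp_deriv (h : Dt k V a) (s : ℝ) : HasDerivAt (Wp V a) (V s) s :=
  (h.cont.integral_hasStrictDerivAt (-a) s).hasDerivAt

lemma Wp_cont (h : Dt k V a) : Continuous (Wp V a) :=
  continuous_iff_continuousAt.2 fun s => (Wp_deriv h s).continuousAt

lemma Wp_mono (h : Dt k V a) : Monotone (Wp V a) :=
  monotone_of_deriv_nonneg (fun s => (Wp_deriv h s).differentiableAt) fun s => by
    rw [(Wp_deriv h s).deriv]
    exact h.nn s

lemma Wp_left (h : Dt k V a) {s : ℝ} (hs : s ≤ -a) : Wp V a s = 0 := by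
  unfold Wp
  rw [intervalIntegral.integral_congr (g := fun _ => (0 : ℝ))]
  · simp
  · intro t ht
    rw [uIcc_of_ge hs] at ht
    refine h.supp t ?_
    rw [abs_of_nonpos (by linarith [ht.2, h.a0])]
    linarith [ht.2]

lemma Wp_nonneg (h : Dt k V a) (s : ℝ) : 0 ≤ Wp V a s := by
  rcases le_total s (-a) with hs | hs
  · rw [Wp_left h hs]
  · rw [← Wp_left h le_rfl]
    exact Wp_mono h hs

lemma Wp_le (h : Dt k V a) (s : ℝ) : Wp V a s ≤ Wp V a a := by
  rcases le_total s a with hs | hs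
  · exact Wp_mono h hs
  · have h1 : Wp V a s - Wp V a a = ∫ t in a..s, V t := by
      unfold Wp
      rw [intervalIntegral.integral_interval_sub_left (h.cont.intervalIntegrable _ _)
        (h.cont.intervalIntegrable _ _)]
    have h2 : ∫ t in a..s, V t = 0 := by
      rw [intervalIntegral.integral_congr (g := fun _ => (0 : ℝ))]
      · simp
      · intro t ht
        rw [uIcc_of_le hs] at ht
        exact h.supp t (by rw [abs_of_nonneg (by linarith [ht.1, h.a0])]; exact ht.1)
    linarith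

lemma int_cont (h : Dt k V a) (p : ℝ) {f : ℝ → ℂ} (hf : Continuous f) :
    Continuous fun t => pw p t * ((V t : ℂ) * f t) :=
  (pw_cont p).mul ((Complex.continuous_ofReal.comp h.cont).mul hf)

lemma AA_deriv (h : Dt k V a) (p : ℝ) {f : ℝ → ℂ} (hf : Continuous f) (s : ℝ) :
    HasDerivAt (AA V a p f) (pw p s * ((V s : ℂ) * f s)) s :=
  ((int_cont h p hf).integral_hasStrictDerivAt (-a) s).hasDerivAt

lemma AA_cont (h : Dt k V a) (p : ℝ) {f : ℝ → ℂ} (hf : Continuous f) :
    Continuous (AA V a p f) :=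
  continuous_iff_continuousAt.2 fun s => (AA_deriv h p hf s).continuousAt

lemma AA_lin (h : Dt k V a) (p : ℝ) {f g : ℝ → ℂ} (hf : Continuous f) (hg : Continuous g) (c : ℂ)
    (s : ℝ) : AA V a p (fun t => f t + c * g t) s = AA V a p f s + c * AA V a p g s := by
  unfold AA
  rw [← intervalIntegral.integral_const_mul, ← intervalIntegral.integral_add
    ((int_cont h p hf).intervalIntegrable _ _)
    (((int_cont h p hg).const_mul c).intervalIntegrable _ _)]
  refine intervalIntegral.integral_congr fun t _ => ?_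
  show pw p t * ((V t : ℂ) * (f t + c * g t)) = _
  ring

lemma Vo_lin (h : Dt k V a) {f g : ℝ → ℂ} (hf : Continuous f) (hg : Continuous g) (c : ℂ)
    (s : ℝ) : Vo k V a (fun t => f t + c * g t) s = Vo k V a f s + c * Vo k V a g s := by
  unfold Vo
  rw [AA_lin h _ hf hg, AA_lin h _ hf hg]
  ring

lemma Vo_cont (h : Dt k V a) {f : ℝ → ℂ} (hf : Continuous f) : Continuous (Vo k V a f) := by
  unfold Vo
  exact continuous_const.mul (((pw_cont k).mul (AA_cont h _ hf)).sub
    ((pw_cont (-k)).mul (AA_cont h _ hf)))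

/-- the weight -/
noncomputable def ew (k : ℝ) (V : ℝ → ℝ) (a s : ℝ) : ℝ := Real.exp (2 / k * Wp V a s)

lemma ew_pos (s : ℝ) : 0 < ew k V a s := Real.exp_pos _

lemma ew_one (h : Dt k V a) (s : ℝ) : 1 ≤ ew k V a s := by
  have := Wp_nonneg h s
  have := h.k0
  exact Real.one_le_exp (by positivity)

lemma ew_le (h : Dt k V a) (s : ℝ) : ew k V a s ≤ ew k V a a := by
  have := Wp_le h s
  have := h.k0
  unfold ew
  gcongr

lemma ew_cont (h : Dt k V a) : Continuous (ew k V a) :=
  Real.continuous_exp.comp (continuous_const.mul (Wp_cont h))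

lemma AA_bound (h : Dt k V a) {f : ℝ → ℂ} (_hf : Continuous f) {N : ℝ} (hN : 0 ≤ N)
    (hb : ∀ t, ‖f t‖ ≤ N * ew k V a t) (p s : ℝ) :
    ‖AA V a p f s‖ ≤ N * (k / 2) * ew k V a s := by
  have hk := h.k0
  have hpos := ew_pos (k := k) (V := V) (a := a) s
  rcases le_total (-a) s with hs | hs
  · have h1 : ‖AA V a p f s‖ ≤ ∫ t in (-a)..s, V t * (N * ew k V a t) := by
      refine intervalIntegral.norm_integral_le_of_norm_le hs
        (Filter.Eventually.of_forall fun t _ => ?_)
        ((h.cont.mul (continuous_const.mul (ew_cont h))).intervalIntegrable _ _)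
      rw [norm_mul, pw_norm, one_mul, norm_mul, Complex.norm_real, Real.norm_of_nonneg (h.nn t)]
      exact mul_le_mul_of_nonneg_left (hb t) (h.nn t)
    have h2 : ∫ t in (-a)..s, V t * (N * ew k V a t) =
        N * (k / 2) * ew k V a s - N * (k / 2) * ew k V a (-a) := by
      refine intervalIntegral.integral_eq_sub_of_hasDerivAt
        (f := fun t => N * (k / 2) * ew k V a t) (fun t _ => ?_)
        ((h.cont.mul (continuous_const.mul (ew_cont h))).intervalIntegrable _ _)
      have h3 : HasDerivAt (fun t => N * (k / 2) * ew k V a t)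
          (N * (k / 2) * (Real.exp (2 / k * Wp V a t) * (2 / k * V t))) t :=
        (((Wp_deriv h t).const_mul (2 / k)).exp).const_mul (N * (k / 2))
      refine h3.congr_deriv ?_
      unfold ew
      field_simp
    have h4 : 0 ≤ N * (k / 2) * ew k V a (-a) := by
      have := ew_pos (k := k) (V := V) (a := a) (-a)
      positivity
    linarith
  · have h1 : AA V a p f s = 0 := by
      unfold AA
      rw [intervalIntegral.integral_congr (g := fun _ => (0 : ℂ))]
      · simp
      · intro t ht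
        rw [uIcc_of_ge hs] at ht
        have h2 : V t = 0 := by
          refine h.supp t ?_
          rw [abs_of_nonpos (by linarith [ht.2, h.a0])]
          linarith [ht.2]
        show pw p t * ((V t : ℂ) * f t) = 0
        rw [h2]
        simp
    rw [h1, norm_zero]
    positivity

lemma Vo_bound (h : Dt k V a) {f : ℝ → ℂ} (hf : Continuous f) {N : ℝ} (hN : 0 ≤ N)
    (hb : ∀ t, ‖f t‖ ≤ N * ew k V a t) (s : ℝ) :
    ‖Vo k V a f s‖ ≤ N / 2 * ew k V a s := by
  have hk := h.k0
  have h1 := AA_bound h hf hN hb (-k) s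
  have h2 := AA_bound h hf hN hb k s
  unfold Vo
  rw [norm_mul]
  have h3 : ‖Complex.I / (2 * (k : ℂ))‖ = 1 / (2 * k) := by
    rw [norm_div, Complex.norm_I, norm_mul, Complex.norm_real, Real.norm_of_nonneg hk.le]
    simp
  have h4 : ‖pw k s * AA V a (-k) f s - pw (-k) s * AA V a k f s‖ ≤
      N * (k / 2) * ew k V a s + N * (k / 2) * ew k V a s := by
    refine (norm_sub_le _ _).trans ?_
    rw [norm_mul, norm_mul, pw_norm, pw_norm, one_mul, one_mul]
    linarith
  rw [h3]
  calc 1 / (2 * k) * _ ≤ 1 / (2 * k) * (N * (k / 2) * ew k V a s + N * (k / 2) * ew k V a s) := by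
        gcongr
    _ = N / 2 * ew k V a s := by
        field_simp
        ring

/-- a priori bound -/
lemma apriori (h : Dt k V a) {f G : ℝ → ℂ} (hf : BC f) {M : ℝ} (hM : ∀ s, ‖G s‖ ≤ M)
    (he : ∀ s, f s = G s + Vo k V a f s) (s : ℝ) : ‖f s‖ ≤ 2 * M * ew k V a s := by
  obtain ⟨B, hB⟩ := hf.bdd
  have hM0 : 0 ≤ M := (norm_nonneg _).trans (hM 0)
  have hB0 : 0 ≤ B := (norm_nonneg _).trans (hB 0)
  have hbd : BddAbove (range fun s => ‖f s‖ / ew k V a s) := by
    refine ⟨B, ?_⟩
    rintro _ ⟨s, rfl⟩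
    show ‖f s‖ / ew k V a s ≤ B
    rw [div_le_iff₀ (ew_pos s)]
    have := ew_one h s
    nlinarith [hB s]
  set N := ⨆ s, ‖f s‖ / ew k V a s with hN
  have hN0 : 0 ≤ N := le_trans (div_nonneg (norm_nonneg _) (ew_pos 0).le) (le_ciSup hbd 0)
  have h1 : ∀ t, ‖f t‖ ≤ N * ew k V a t := fun t => by
    have := le_ciSup hbd t
    rw [div_le_iff₀ (ew_pos t)] at this
    exact this
  have h2 : N ≤ M + N / 2 := by
    refine ciSup_le fun t => ?_
    rw [div_le_iff₀ (ew_pos t)]
    have h3 := Vo_bound h hf.cont hN0 h1 t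
    have h4 : ‖f t‖ ≤ ‖G t‖ + ‖Vo k V a f t‖ := by
      conv_lhs => rw [he t]
      exact norm_add_le _ _
    have h5 := ew_one h t
    nlinarith [hM t]
  have h3 : N ≤ 2 * M := by linarith
  have := h1 s
  have := ew_pos (k := k) (V := V) (a := a) s
  nlinarith

/-- the Volterra equation has a solution -/
lemma volterra (h : Dt k V a) {G : ℝ → ℂ} (hG : BC G) :
    ∃ f : ℝ → ℂ, BC f ∧ ∀ s, f s = G s + Vo k V a f s := by
  obtain ⟨M, hM⟩ := hG.bdd
  have hec : Continuous fun s => ((ew k V a s : ℝ) : ℂ) :=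
    Complex.continuous_ofReal.comp (ew_cont h)
  have heic : Continuous fun s => (((ew k V a s)⁻¹ : ℝ) : ℂ) :=
    Complex.continuous_ofReal.comp ((ew_cont h).inv₀ fun s => (ew_pos s).ne')
  have hc : ∀ g : ℝ →ᵇ ℂ, Continuous fun t => ((ew k V a t : ℝ) : ℂ) * g t := fun g =>
    hec.mul g.continuous
  have hn : ∀ s, ‖(((ew k V a s)⁻¹ : ℝ) : ℂ)‖ = (ew k V a s)⁻¹ := fun s => by
    rw [Complex.norm_real, Real.norm_of_nonneg (inv_nonneg.2 (ew_pos s).le)]
  have hb : ∀ (g : ℝ →ᵇ ℂ) (t : ℝ), ‖((ew k V a t : ℝ) : ℂ) * g t‖ ≤ ‖g‖ * ew k V a t := by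
    intro g t
    rw [norm_mul, Complex.norm_real, Real.norm_of_nonneg (ew_pos t).le, mul_comm]
    exact mul_le_mul_of_nonneg_right (g.norm_coe_le_norm t) (ew_pos t).le
  let Φ : (ℝ →ᵇ ℂ) → (ℝ →ᵇ ℂ) := fun g => BoundedContinuousFunction.ofNormedAddCommGroup
    (fun s => (((ew k V a s)⁻¹ : ℝ) : ℂ) *
      (G s + Vo k V a (fun t => ((ew k V a t : ℝ) : ℂ) * g t) s))
    (heic.mul (hG.cont.add (Vo_cont h (hc g)))) (M + ‖g‖ / 2) (fun s => by
      rw [norm_mul, hn, inv_mul_le_iff₀ (ew_pos s)]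
      have h1 := Vo_bound h (hc g) (norm_nonneg g) (hb g) s
      have h2 := norm_add_le (G s) (Vo k V a (fun t => ((ew k V a t : ℝ) : ℂ) * g t) s)
      have h3 := ew_one h s
      have h4 := hM s
      have h5 : 0 ≤ M := (norm_nonneg _).trans h4
      nlinarith)
  have hΦ : ∀ g s, Φ g s = (((ew k V a s)⁻¹ : ℝ) : ℂ) *
      (G s + Vo k V a (fun t => ((ew k V a t : ℝ) : ℂ) * g t) s) := fun g s => rfl
  have hcon : ContractingWith (1 / 2) Φ := by
    refine ⟨by
      rw [← NNReal.coe_lt_coe]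
      norm_num, LipschitzWith.of_dist_le_mul fun g g' => ?_⟩
    rw [BoundedContinuousFunction.dist_le (by positivity)]
    intro s
    rw [dist_eq_norm, hΦ, hΦ, ← mul_sub, norm_mul, hn, inv_mul_le_iff₀ (ew_pos s)]
    have h1 : G s + Vo k V a (fun t => ((ew k V a t : ℝ) : ℂ) * g t) s -
        (G s + Vo k V a (fun t => ((ew k V a t : ℝ) : ℂ) * g' t) s) =
        Vo k V a (fun t => ((ew k V a t : ℝ) : ℂ) * g t +
          (-1) * (((ew k V a t : ℝ) : ℂ) * g' t)) s := by
      rw [Vo_lin h (hc g) (hc g')]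
      ring
    rw [h1]
    have hcc : Continuous fun t => ((ew k V a t : ℝ) : ℂ) * g t +
        (-1) * (((ew k V a t : ℝ) : ℂ) * g' t) := (hc g).add (continuous_const.mul (hc g'))
    have h2 := Vo_bound h hcc (N := dist g g') dist_nonneg
      (fun t => by
        have h3 : ((ew k V a t : ℝ) : ℂ) * g t + (-1) * (((ew k V a t : ℝ) : ℂ) * g' t) =
            ((ew k V a t : ℝ) : ℂ) * (g t - g' t) := by ring
        rw [h3, norm_mul, Complex.norm_real, Real.norm_of_nonneg (ew_pos t).le, mul_comm,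
          ← dist_eq_norm]
        exact mul_le_mul_of_nonneg_right (BoundedContinuousFunction.dist_coe_le_dist t)
          (ew_pos t).le) s
    refine h2.trans (le_of_eq ?_)
    push_cast
    ring
  set g := ContractingWith.fixedPoint Φ hcon with hg
  have hfix : Φ g = g := hcon.fixedPoint_isFixedPt
  refine ⟨fun t => ((ew k V a t : ℝ) : ℂ) * g t, ⟨hc g, ⟨‖g‖ * ew k V a a, fun s =>
    (hb g s).trans (mul_le_mul_of_nonneg_left (ew_le h s) (norm_nonneg _))⟩⟩, fun s => ?_⟩
  have h1 := hΦ g s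
  rw [hfix] at h1
  show ((ew k V a s : ℝ) : ℂ) * g s = _
  rw [h1]
  have h2 : ((ew k V a s : ℝ) : ℂ) ≠ 0 := by exact_mod_cast (ew_pos s).ne'
  rw [Complex.ofReal_inv, ← mul_assoc, mul_inv_cancel₀ h2, one_mul]

lemma pw_BC (p : ℝ) : BC (pw p) := ⟨pw_cont p, 1, fun s => (pw_norm p s).le⟩

/-- the transmission coefficient is not zero -/
lemma jost (h : Dt k V a) {φ : ℝ → ℂ} (hφ : Continuous φ)
    (he : ∀ s, φ s = pw (-k) s + Vo k V a φ s) :
    1 ≤ ‖1 - Complex.I / (2 * k) * AA V a k φ a‖ := by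
  have hk := h.k0
  set p : ℝ → ℂ := fun s => 1 - Complex.I / (2 * k) * AA V a k φ s with hp
  set q : ℝ → ℂ := fun s => Complex.I / (2 * k) * AA V a (-k) φ s with hq
  have hdp : ∀ s, HasDerivAt p (-(Complex.I / (2 * k) * (pw k s * ((V s : ℂ) * φ s)))) s :=
    fun s => by
      have := ((AA_deriv h k hφ s).const_mul (Complex.I / (2 * k))).const_sub 1
      exact this
  have hdq : ∀ s, HasDerivAt q (Complex.I / (2 * k) * (pw (-k) s * ((V s : ℂ) * φ s))) s :=
    fun s => (AA_deriv h (-k) hφ s).const_mul (Complex.I / (2 * k))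
  have hφpq : ∀ s, φ s = pw (-k) s * p s + pw k s * q s := fun s => by
    rw [he s]
    simp only [hp, hq, Vo]
    ring
  have hd : ∀ s, HasDerivAt (fun s => ‖p s‖ ^ 2 - ‖q s‖ ^ 2) 0 s := fun s => by
    have h1 : HasDerivAt (fun s => ‖p s‖ ^ 2 - ‖q s‖ ^ 2) _ s :=
      (hdp s).norm_sq.sub (hdq s).norm_sq
    refine h1.congr_deriv ?_
    rw [Complex.inner, Complex.inner, ← mul_sub, ← Complex.sub_re]
    have h2 : (starRingEnd ℂ) (φ s) = pw k s * (starRingEnd ℂ) (p s) +
        pw (-k) s * (starRingEnd ℂ) (q s) := by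
      rw [hφpq s, map_add, map_mul, map_mul, pw_conj, pw_conj, neg_neg]
    have h3 : -(Complex.I / (2 * k) * (pw k s * ((V s : ℂ) * φ s))) * (starRingEnd ℂ) (p s) -
        Complex.I / (2 * k) * (pw (-k) s * ((V s : ℂ) * φ s)) * (starRingEnd ℂ) (q s) =
        -(Complex.I / (2 * k) * ((V s : ℂ) * (φ s * (starRingEnd ℂ) (φ s)))) := by
      rw [h2]
      ring
    rw [h3, Complex.mul_conj]
    have h4 : -(Complex.I / (2 * (k : ℂ)) * ((V s : ℂ) * ((Complex.normSq (φ s) : ℝ) : ℂ))) =
        ((-(V s * Complex.normSq (φ s) / (2 * k)) : ℝ) : ℂ) * Complex.I := by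
      push_cast
      ring
    rw [h4, Complex.re_ofReal_mul, Complex.I_re]
    ring
  have hconst := is_const_of_deriv_eq_zero (fun s => (hd s).differentiableAt)
    (fun s => (hd s).deriv) a (-a)
  have hA : ∀ r, AA V a r φ (-a) = 0 := fun r => by
    unfold AA
    exact intervalIntegral.integral_same
  simp only [hp, hq, hA, mul_zero, sub_zero, norm_one, norm_zero] at hconst
  have h5 : 0 ≤ ‖Complex.I / (2 * (k : ℂ)) * AA V a (-k) φ a‖ ^ 2 := by positivity
  have h6 : 1 ≤ ‖1 - Complex.I / (2 * (k : ℂ)) * AA V a k φ a‖ ^ 2 := by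
    have h7 : ‖1 - Complex.I / (2 * (k : ℂ)) * AA V a k φ a‖ ^ 2 =
      1 + ‖Complex.I / (2 * (k : ℂ)) * AA V a (-k) φ a‖ ^ 2 := by linarith
    rw [h7]
    linarith
  have h8 := norm_nonneg (1 - Complex.I / (2 * (k : ℂ)) * AA V a k φ a)
  nlinarith

/-- integrals over half-lines -/
lemma int_Iic {g : ℝ → ℂ} (ha : 0 < a) (hg : Continuous g) (hs : ∀ t, a ≤ |t| → g t = 0) (s : ℝ) :
    Integrable g ∧ ∫ t in Iic s, g t = ∫ t in (-a)..s, g t := by
  have hc : HasCompactSupport g := HasCompactSupport.intro (isCompact_Icc (a := -a) (b := a))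
    fun t ht => hs t (by
      by_contra hlt
      push Not at hlt
      rw [abs_lt] at hlt
      exact ht ⟨hlt.1.le, hlt.2.le⟩)
  have hi : Integrable g := hg.integrable_of_hasCompactSupport hc
  refine ⟨hi, ?_⟩
  rw [← intervalIntegral.integral_Iic_sub_Iic hi.integrableOn hi.integrableOn]
  rw [setIntegral_eq_zero_of_forall_eq_zero (t := Iic (-a)) fun t ht => hs t (by
    rw [abs_of_nonpos (by linarith [mem_Iic.1 ht])]
    linarith [mem_Iic.1 ht]), sub_zero]

lemma int_all {g : ℝ → ℂ} (ha : 0 < a) (hg : Continuous g) (hs : ∀ t, a ≤ |t| → g t = 0) :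
    ∫ t, g t = ∫ t in (-a)..a, g t := by
  obtain ⟨hi, h1⟩ := int_Iic ha hg hs a
  rw [← intervalIntegral.integral_Iic_add_Ioi (b := a) hi.integrableOn hi.integrableOn, h1,
    setIntegral_eq_zero_of_forall_eq_zero (t := Ioi a) fun t ht => hs t (by
      rw [abs_of_nonneg (by linarith [mem_Ioi.1 ht])]
      exact (mem_Ioi.1 ht).le), add_zero]

lemma g0_cont : Continuous (g0 k) := by
  unfold g0
  exact continuous_const.mul ((pw_cont k).comp continuous_abs)

lemma K0_eq (h : Dt k V a) {f : ℝ → ℂ} (hf : Continuous f) (s : ℝ) :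
    K0 k V f s = Complex.I / (2 * k) * AA V a k f a * pw (-k) s + Vo k V a f s := by
  have ha := h.a0
  have hVf : ∀ t, a ≤ |t| → ((V t : ℝ) : ℂ) * f t = 0 := fun t ht => by
    rw [h.supp t ht]
    simp
  have hc : Continuous fun t => g0 k (s - t) * (V t * f t) :=
    (g0_cont.comp (continuous_const.sub continuous_id)).mul
      ((Complex.continuous_ofReal.comp h.cont).mul hf)
  obtain ⟨hi, -⟩ := int_Iic ha hc (fun t ht => by rw [hVf t ht, mul_zero]) s
  have hp : ∀ p : ℝ, Continuous fun t => pw p t * ((V t : ℂ) * f t) := fun p => int_cont h p hf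
  have hps : ∀ (p t : ℝ), a ≤ |t| → pw p t * ((V t : ℂ) * f t) = 0 := fun p t ht => by
    rw [hVf t ht, mul_zero]
  have h1 : ∫ t in Iic s, g0 k (s - t) * (V t * f t) =
      Complex.I / (2 * k) * pw k s * AA V a (-k) f s := by
    have e1 : ∫ t in Iic s, g0 k (s - t) * (V t * f t) =
        ∫ t in Iic s, Complex.I / (2 * k) * pw k s * (pw (-k) t * ((V t : ℂ) * f t)) := by
      refine setIntegral_congr_fun measurableSet_Iic fun t ht => ?_
      show g0 k (s - t) * (V t * f t) = _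
      unfold g0
      rw [abs_of_nonneg (sub_nonneg.2 (mem_Iic.1 ht)), pw_sub]
      ring
    rw [e1, integral_const_mul, (int_Iic ha (hp (-k)) (hps (-k)) s).2]
    rfl
  have h2 : ∫ t in Ioi s, g0 k (s - t) * (V t * f t) =
      Complex.I / (2 * k) * pw (-k) s * (AA V a k f a - AA V a k f s) := by
    have e1 : ∫ t in Ioi s, g0 k (s - t) * (V t * f t) =
        ∫ t in Ioi s, Complex.I / (2 * k) * pw (-k) s * (pw k t * ((V t : ℂ) * f t)) := by
      refine setIntegral_congr_fun measurableSet_Ioi fun t ht => ?_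
      show g0 k (s - t) * (V t * f t) = _
      unfold g0
      rw [abs_of_nonpos (sub_nonpos.2 (mem_Ioi.1 ht).le), neg_sub, pw_sub']
      ring
    have hj := int_Iic ha (hp k) (hps k) s
    have e2 := intervalIntegral.integral_Iic_add_Ioi (b := s) hj.1.integrableOn hj.1.integrableOn
    rw [int_all ha (hp k) (hps k), hj.2] at e2
    rw [e1, integral_const_mul]
    congr 1
    unfold AA
    rw [← e2]
    ring
  unfold K0
  rw [← intervalIntegral.integral_Iic_add_Ioi (b := s) hi.integrableOn hi.integrableOn, h1, h2]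
  unfold Vo
  ring

theorem K0_main (h : Dt k V a) : ∃ C : ℝ, 0 < C ∧
      (∀ (F f : ℝ → ℂ) (M : ℝ), BC F → BC f → (∀ s, ‖F s‖ ≤ M) →
        (∀ s, f s = F s + K0 k V f s) → ∀ s, ‖f s‖ ≤ C * M) ∧
      ∀ F : ℝ → ℂ, BC F → ∃ f : ℝ → ℂ, BC f ∧ ∀ s, f s = F s + K0 k V f s := by
  have hk := h.k0
  obtain ⟨φ, hφ, heφ⟩ := volterra h (pw_BC (-k))
  have hD := jost h hφ.cont heφ
  set D : ℂ := 1 - Complex.I / (2 * k) * AA V a k φ a with hDdef
  have hD0 : D ≠ 0 := fun h0 => by
    rw [h0, norm_zero] at hD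
    linarith
  set E : ℝ := ew k V a a with hE
  have hE1 : 1 ≤ E := ew_one h a
  have hφb : ∀ s, ‖φ s‖ ≤ 2 * E := fun s => by
    have h1 := apriori h hφ (M := 1) (fun s => (pw_norm (-k) s).le) heφ s
    have h2 := ew_le h s
    linarith
  have hcI : ‖Complex.I / (2 * (k : ℂ))‖ = 1 / (2 * k) := by
    rw [norm_div, Complex.norm_I, norm_mul, Complex.norm_real, Real.norm_of_nonneg hk.le]
    simp
  refine ⟨2 * E + E ^ 2, by positivity, ?_, ?_⟩
  · intro F f M hF hf hM he s
    have hM0 : 0 ≤ M := (norm_nonneg _).trans (hM 0)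
    obtain ⟨ρ, hρ, heρ⟩ := volterra h hF
    set c : ℂ := Complex.I / (2 * k) * AA V a k f a with hc
    have he' : ∀ s, f s = (F s + c * pw (-k) s) + Vo k V a f s := fun s => by
      conv_lhs => rw [he s, K0_eq h hf.cont s]
      ring
    have hρφ : Continuous fun t => ρ t + c * φ t := hρ.cont.add (continuous_const.mul hφ.cont)
    -- `f = ρ + c φ`
    have hu : ∀ s, f s = ρ s + c * φ s := by
      intro s
      have hd : BC (fun t => f t + (-1) * (ρ t + c * φ t)) := by
        obtain ⟨C1, hC1⟩ := hf.bdd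
        obtain ⟨C2, hC2⟩ := hρ.bdd
        obtain ⟨C3, hC3⟩ := hφ.bdd
        refine ⟨hf.cont.add (continuous_const.mul (hρ.cont.add (continuous_const.mul hφ.cont))),
          C1 + (C2 + ‖c‖ * C3), fun t => ?_⟩
        refine (norm_add_le _ _).trans (add_le_add (hC1 t) ?_)
        rw [norm_mul, norm_neg, norm_one, one_mul]
        refine (norm_add_le _ _).trans (add_le_add (hC2 t) ?_)
        rw [norm_mul]
        exact mul_le_mul_of_nonneg_left (hC3 t) (norm_nonneg _)
      have h1 := apriori h hd (G := fun _ => 0) (M := 0) (fun _ => by simp) (fun t => by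
        rw [Vo_lin h hf.cont hρφ, Vo_lin h hρ.cont hφ.cont]
        have e1 := he' t
        have e2 := heρ t
        have e3 := heφ t
        linear_combination e1 - e2 - c * e3) s
      have h2 : f s + (-1) * (ρ s + c * φ s) = 0 := by
        rw [← norm_le_zero_iff]
        simpa using h1
      linear_combination h2
    have hfe : f = fun t => ρ t + c * φ t := funext hu
    have hAA : AA V a k f a = AA V a k ρ a + c * AA V a k φ a := by
      conv_lhs => rw [hfe]
      exact AA_lin h k hρ.cont hφ.cont c a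
    have hcD : c * D = Complex.I / (2 * k) * AA V a k ρ a := by
      rw [hDdef]
      have : c = Complex.I / (2 * k) * (AA V a k ρ a + c * AA V a k φ a) := by
        rw [← hAA]
      linear_combination this
    have hρb := apriori h hρ hM heρ
    have hAρ := AA_bound h hρ.cont (by positivity) hρb k a
    have hcb : ‖c‖ ≤ 1 / (2 * k) * (2 * M * (k / 2) * E) := by
      have h1 : ‖c‖ * ‖D‖ = ‖Complex.I / (2 * (k : ℂ))‖ * ‖AA V a k ρ a‖ := by
        rw [← norm_mul, hcD, norm_mul]
      rw [hcI] at h1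
      have h2 : ‖c‖ ≤ ‖c‖ * ‖D‖ := le_mul_of_one_le_right (norm_nonneg _) hD
      rw [h1] at h2
      refine h2.trans ?_
      gcongr
    have hcb' : ‖c‖ ≤ M * E / 2 := by
      refine hcb.trans (le_of_eq ?_)
      field_simp
    rw [hu s]
    have h3 : ‖ρ s‖ ≤ 2 * M * E := (hρb s).trans (by
      have := ew_le h s
      gcongr)
    have h4 : ‖c * φ s‖ ≤ M * E / 2 * (2 * E) := by
      rw [norm_mul]
      exact mul_le_mul hcb' (hφb s) (norm_nonneg _) (by positivity)
    refine (norm_add_le _ _).trans ((add_le_add h3 h4).trans (le_of_eq ?_))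
    ring
  · intro F hF
    obtain ⟨ρ, hρ, heρ⟩ := volterra h hF
    set c : ℂ := Complex.I / (2 * k) * AA V a k ρ a / D with hc
    have hcD : c * D = Complex.I / (2 * k) * AA V a k ρ a := by
      rw [hc, div_mul_cancel₀ _ hD0]
    have hcont : Continuous fun t => ρ t + c * φ t := hρ.cont.add (continuous_const.mul hφ.cont)
    refine ⟨fun t => ρ t + c * φ t, ⟨hcont, ?_⟩, fun s => ?_⟩
    · obtain ⟨C2, hC2⟩ := hρ.bdd
      obtain ⟨C3, hC3⟩ := hφ.bdd
      refine ⟨C2 + ‖c‖ * C3, fun t => (norm_add_le _ _).trans (add_le_add (hC2 t) ?_)⟩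
      rw [norm_mul]
      exact mul_le_mul_of_nonneg_left (hC3 t) (norm_nonneg _)
    · rw [K0_eq h hcont s, Vo_lin h hρ.cont hφ.cont, AA_lin h k hρ.cont hφ.cont]
      have e2 := heρ s
      have e3 := heφ s
      rw [hDdef] at hcD
      linear_combination e2 + c * e3 + pw (-k) s * hcD

end

theorem t_K0 : S_K0 := by
  intro k V hk hV hc hn
  obtain ⟨r, hr⟩ := (Metric.isBounded_iff_subset_closedBall 0).1 hc.isCompact.isBounded
  refine K0_main (a := |r| + 1) ⟨hk, hV, hn, by positivity, fun s hs => ?_⟩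
  refine image_eq_zero_of_notMem_tsupport fun h1 => ?_
  have h2 := hr h1
  rw [Metric.mem_closedBall, dist_zero_right, Real.norm_eq_abs] at h2
  have := le_abs_self r
  linarith

end Pool.Agent.E8helper41.LC
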